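import Pool.Agent.Q41.RC.Final

/-!
# Open parts of abelian covers of products of projective spaces

Let `U` be the open part, over the complement of the hypersurfaces `F c = 0`, `c ∈ S`, of an abelian
cover of the product of the projective spaces of the dimensions `n l`, which is branched along any
number of hypersurfaces `F c = 0` of any multidegrees `d c`: the function field `K` is generated by
the affine coordinates `x` and by roots `z j`, `z j ^ m j = ∏ c, F c (x) ^ a j c`. (By Kummer theory
all abelian covers are of this form; `S` is arbitrary, some of the hypersurfaces in `S` may be
unramified, and the cover may be ramified outside `S`, where it has noncanonical singularities in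
general; `U` is replaced by a resolution.) The definitions are in `Pool.Agent.Q41.RC.Defs`; the
logarithmic Kodaira dimension and `A¹`-uniruledness are given by the function field `K` and the set
`Boundary d F S x` of the divisorial places over the hypersurfaces in `S`, in the language of
`MP_410da7_ag/MixedOpenQuotients.lean`.

**Theorem.** (1) For arbitrary hypersurfaces (with arbitrary singularities and intersections): if
there are numerical data `D`, `v` of a family of rational curves, which meet the hypersurfaces
outside `S` in `p` points and do not meet the hypersurfaces in `S` but in one point, with fewer
conditions than parameters, then `U` is `A¹`-uniruled.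

(2) If the hypersurfaces have normal crossings then the following are equivalent: the logarithmic
Kodaira dimension of `U` is `-∞`; `U` is `A¹`-uniruled; a system of linear inequalities, for the
exponents of a logarithmic form, has no solution; there are data as in (1).

The logarithmic version of the theorem of Boucksom, Demailly, Păun and Peternell is not known, so
that also for log smooth pairs with `K + D` not pseudo-effective there are no `A¹`-curves for general
reasons. They are constructed here: by a dimension count there are polynomial curves `q` through
every point `x` with `F c (q (t)) = F c (x) ∏ i, (1 - α i * t) ^ v i c`, where one of the points is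
split into two points, one of which is at infinity; such a curve is not constant if the degrees are
minimal, and the components of its preimage in the cover are covered by `A¹`.
-/

set_option autoImplicit false

open FF MvPolynomial Pool.Agent.W619.PL Pool.Agent.Q41.RC.Def

namespace Pool.Agent.Results.MP_410da7_ag.OpenCoversOfProducts

/-- **Open parts of abelian covers of products of projective spaces.** Let `K` be the function field
of an abelian cover of the product of the projective spaces of the dimensions `n l`, branched at most
along the hypersurfaces `F c = 0` of the multidegrees `d c`, and let `U` be (a resolution of) the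
part of the cover over the complement of the hypersurfaces `F c = 0` with `c ∈ S`.

(1) If there are curve data then `U` is `A¹`-uniruled, for arbitrary hypersurfaces.

(2) Let the hypersurfaces have normal crossings. Then the following are equivalent: the logarithmic
Kodaira dimension of `U` is `-∞`; `U` is `A¹`-uniruled; there are no admissible exponents; there are
curve data. -/
theorem result {r N R : ℕ} {n : Fin r → ℕ} {d : Fin N → Fin r → ℕ}
    {F : Fin N → MvPolynomial (Coord n) ℂ} {m : Fin R → ℕ} {a : Fin R → Fin N → ℕ} {K : Type}
    [Field K] [Algebra ℂ K] {x : Coord n → K} {z : Fin R → K} (h : IsCover d F m a x z)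
    (S : Set (Fin N)) :
    ((∃ (D : Fin r → ℕ) (p : ℕ) (v : Fin p → Fin N → ℕ), IsCurveData n d m a S D v) →
      IsA1Uniruled ℂ K (∑ l, n l) (Boundary d F S x)) ∧
    (NormalCrossings F → List.TFAE [LogKodairaNeg ℂ K (∑ l, n l) (Boundary d F S x),
      IsA1Uniruled ℂ K (∑ l, n l) (Boundary d F S x), ¬ ∃ e, IsExponent d F m a S e,
      ∃ (D : Fin r → ℕ) (p : ℕ) (v : Fin p → Fin N → ℕ), IsCurveData n d m a S D v]) := by
  refine ⟨?_, ?_⟩
  · rintro ⟨D, p, v, hv⟩
    exact Pool.Agent.Q41.RC.final_a1 h hv
  · intro hF
    have h1 := Pool.Agent.Q41.RC.final_tfae h hF S
    tfae_have 1 ↔ 2 := h1.out 0 1
    tfae_have 2 ↔ 3 := h1.out 1 3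
    tfae_have 3 ↔ 4 := h1.out 3 4
    tfae_finish

end Pool.Agent.Results.MP_410da7_ag.OpenCoversOfProducts
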