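import Pool.Agent.Q64.LC.Aru
import Pool.Agent.Q64.LC.Ptd

/-!
# Varieties covered by affine lines and entire curves of slow growth

Let `k` be a countable subfield of `ℂ`, for example the field of algebraic numbers. There is one
function `Ψ`, growing faster than all polynomials, with the following property for all `U = X - D`,
where `X ⊂ ℙ ^ n` is an irreducible projective variety over `k` of dimension `w` and `D` is its
intersection with a hypersurface `Q = 0` over `k`. Slow curves are the nonconstant entire curves in
`U`, also transcendental ones, with entire homogeneous coordinates `f` such that `Q (f)` is constant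
and `‖f z‖ ≤ C * Ψ ‖z‖` for large `z`.

The variety `U` is `𝔸¹`-uniruled if and only if the points on the slow curves form a set of Hausdorff
dimension greater than `2 w` in the cone over `X`, which has real dimension `2 w + 2`. In this case
nonconstant morphisms `𝔸¹ → U` pass through all points of `U` outside of a hypersurface section, and
the logarithmic Kodaira dimension of `U` is `-∞`.
-/

set_option autoImplicit false

namespace Pool.Agent.Results.MP_410da7_ag.SlowAffineUniruled

open MvPolynomial Pool.Agent.TH143.GT Pool.Agent.W602.GT Pool.Agent.W603.GR Pool.Agent.W603.PV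
open Pool.Agent.Q64.LC
open scoped ENNReal

theorem result (k : Subfield ℂ) [Countable k] :
    ∃ Ψ : ℝ → ℝ, SuperPoly Ψ ∧ ∀ (n : ℕ) (p : Ideal (MvPolynomial (Fin (n + 1)) ℂ))
      (Q : MvPolynomial (Fin (n + 1)) ℂ) (q : ℕ), IsHomog p → Q.IsHomogeneous q →
      OverK k p → CoeffK k Q →
      ∀ (w : ℕ) (K : Type) [Field K] [Algebra ℂ K] (y : Fin (n + 1) → K), FunField p Q K w y →
        List.TFAE [
          -- a family of affine lines in `U` passes through the generic point
          PolyCovered Q y,
          -- morphisms `𝔸¹ → U` through all points of `U` outside of a hypersurface section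
          ∃ G, IsForm G ∧ G ∉ p ∧ ∀ x : Fin (n + 1) → ℂ, (∀ H ∈ p, eval x H = 0) →
            eval x G ≠ 0 → ∃ T, Mor p Q T ∧ NC T ∧ ∃ u c : ℂ, x = c • fun j => (T j).eval u,
          -- slow curves through all points of `U` outside of a hypersurface section
          ∃ G, IsForm G ∧ G ∉ p ∧ ∀ x : Fin (n + 1) → ℂ, (∀ H ∈ p, eval x H = 0) →
            eval x G ≠ 0 → ∃ f, Entire p Q f ∧ GrowthLe Ψ f ∧ ∃ z, f z = x,
          -- the slow curves fill a set of dimension greater than `2 w`
          ((2 * w : ℕ) : ℝ≥0∞) < dimH (slowPts p Q Ψ),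
          ((2 * w + 2 : ℕ) : ℝ≥0∞) ≤ dimH (slowPts p Q Ψ)] ∧
        (((2 * w : ℕ) : ℝ≥0∞) < dimH (slowPts p Q Ψ) → ∀ N : ℕ, 0 < N →
          ∀ ω : (Fin w → Derivation ℂ K K) → K, LogSec ℂ K w N (OffQ Q q y) ω → ω = 0) := by
  obtain ⟨Ψ, h1, h2⟩ := uni_main k
  refine ⟨Ψ, h1, fun n p Q q hp hQ hpk hQk w K _ _ y hy => ?_⟩
  obtain ⟨h3, -, h5, -⟩ := h2 n p Q q hp hQ hpk hQk
  have ht := covered_tfae hp hQ hy
  have t12 := ht.out 0 1
  have t14 := ht.out 0 3
  refine ⟨?_, fun hlt N hN ω hω => ?_⟩
  · tfae_have 1 → 2 := by
      intro h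
      obtain ⟨G, hG, hGp, h6⟩ := t12.1 h
      refine ⟨G, hG, hGp, fun x hx hxG => ?_⟩
      obtain ⟨T, hT, u, hu⟩ := h6 x hx hxG
      obtain ⟨g, T', hT', hM, hN⟩ := hT.reduce hQ
      refine ⟨T', hM, hN, u, g.eval u, ?_⟩
      rw [hu]
      funext j
      rw [hT' j, Polynomial.eval_mul]
      rfl
    tfae_have 2 → 3 := by
      rintro ⟨G, hG, hGp, h⟩
      obtain ⟨d, hd⟩ := hG
      by_cases hd0 : d = 0
      · -- replace a constant by a coordinate
        obtain ⟨k0, hk0⟩ := Function.ne_iff.1 hy.sub.ne
        refine ⟨X k0, ⟨1, isHomogeneous_X _ _⟩, fun h6 => hk0 ?_, fun x hx hxG => ?_⟩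
        · have h7 := hy.sub.mem _ h6
          unfold W602.GT.val at h7
          rw [aeval_X] at h7
          exact h7
        · rw [eval_X] at hxG
          obtain ⟨b, rfl⟩ : ∃ b, G = C b := ⟨_, (totalDegree_eq_zero_iff_eq_C (p := G)).1
            (Nat.le_zero.1 (hd0 ▸ hd.totalDegree_le))⟩
          have hb : eval x (C b : MvPolynomial (Fin (n + 1)) ℂ) ≠ 0 := by
            rw [eval_C]
            rintro rfl
            exact hGp (by rw [C_0]; exact Ideal.zero_mem _)
          obtain ⟨T, hM, hN, u, c, huc⟩ := h x hx hb
          have hc : c ≠ 0 := by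
            rintro rfl
            apply hxG
            rw [huc, zero_smul]
            rfl
          have hP := (hM.smul hQ hc).poly (by
            obtain ⟨s, t, j, k, hst⟩ := hN
            refine ⟨s, t, j, k, ?_⟩
            simp only [Polynomial.eval_mul, Polynomial.eval_C]
            intro h8
            apply hst
            apply mul_left_cancel₀ (mul_ne_zero hc hc)
            linear_combination h8)
          refine ⟨_, hP.entire, growthLe_poly h1 _, u, ?_⟩
          rw [huc]
          funext j
          simp only [Polynomial.eval_mul, Polynomial.eval_C, Pi.smul_apply, smul_eq_mul]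
      · refine ⟨G, ⟨d, hd⟩, hGp, fun x hx hxG => ?_⟩
        obtain ⟨T, hM, hN, u, c, huc⟩ := h x hx hxG
        have hc : c ≠ 0 := by
          rintro rfl
          apply hxG
          have h8 := eval_mul_form hd 0 fun j => (T j).eval u
          rw [zero_pow hd0, zero_mul] at h8
          rw [huc]
          exact h8
        have hP := (hM.smul hQ hc).poly (by
          obtain ⟨s, t, j, k, hst⟩ := hN
          refine ⟨s, t, j, k, ?_⟩
          simp only [Polynomial.eval_mul, Polynomial.eval_C]
          intro h8
          apply hst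
          apply mul_left_cancel₀ (mul_ne_zero hc hc)
          linear_combination h8)
        refine ⟨_, hP.entire, growthLe_poly h1 _, u, ?_⟩
        rw [huc]
        funext j
        simp only [Polynomial.eval_mul, Polynomial.eval_C, Pi.smul_apply, smul_eq_mul]
    tfae_have 3 → 5 := by
      rintro ⟨G, hG, hGp, h⟩
      exact (le_dimH_open hp hy hG hGp).trans (dimH_mono fun x hx => h x hx.1 hx.2)
    tfae_have 5 → 4 := by
      intro h
      refine lt_of_lt_of_le ?_ h
      exact_mod_cast (by omega : 2 * w < 2 * w + 2)
    tfae_have 4 → 1 := by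
      intro h
      rw [h3] at h
      exact t14.2 h
    tfae_finish
  · by_contra hω0
    have hnn : NonNeg Q q w y := Or.inr ⟨N, hN, ω, hω, hω0⟩
    rw [h3] at hlt
    exact absurd (dimH_ratPts hp hy (hnn.exists_form hy hQ)) (not_le.2 hlt)

end Pool.Agent.Results.MP_410da7_ag.SlowAffineUniruled
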