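import Pool.Agent.Q47.AL.Non

/-!
# Logarithmic Kodaira dimension and affine lines on complete intersections in toric bundles

Let `X = V / Γ` be the quotient of a complex torus of any dimension by any finite group (projective
or not), and let `Y → X` be a toric bundle: a locally trivial bundle whose fibre is a smooth
complete toric variety, twisted by arbitrary line bundles `c_i` on `X`. Let `Z ⊆ Y` be the
intersection of arbitrary divisors `E_1, …, E_k` and let `D ⊆ Y` be a relatively ample divisor, such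
that for one fibre `Y_v` of `Y → X` the pair `(Y_v, D + ∑ E_j)` is log canonical (for example `D` and
the `E_j` are smooth with normal crossings on one fibre; no condition over the other points). Here
`(K_Y + D + ∑ E_j)|_Z = K_Z + D|_Z`, and `Z ∖ D` is a fibration over `X` with affine fibres.

(1) If `K_Y + D + ∑ E_j` is pseudo-effective, then for some `N ≥ 1` the sections of its `N`-th
multiple have no common zeros on the open torus bundle (the points with all `x_i ≠ 0`), so that the
`N`-th log plurigenus of `(Z, D)` is positive if `Z` contains such a point.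

(2) If the restriction of no multiple of `K_Y + D + ∑ E_j` to the fibres of `Y → X` is effective,
then through each point of `Z ∖ D` there is a nonconstant morphism `A¹ → Z ∖ D`, into a fibre. This
is the case if and only if `(K_Y + D + ∑ E_j) e < 0` for one of the curve classes `e` given by a
relation `∑ e_i u_i = 0` with `e_i ≥ 0`.

(3) If `Γ` contains no reflections (for example if `X` is a complex torus or a smooth quotient),
then one of the two cases occurs: `K_Y + D + ∑ E_j` is pseudo-effective if and only if its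
restriction to the fibres is `ℚ`-effective.

The proof. (1) and (3): the coefficients of the equation of `D + ∑ E_j` define a log canonical
divisor on the base, whose log canonical bundle, twisted by the inverse of `∏ c_i ^ b_i`, is nef;
abundance for torus quotients with arbitrary boundary gives base point free multiples.
(2): by the lemma of Farkas there is a relation `∑ e_i u_i = 0`, `e_i ≥ 0`, on which the class is
negative. We look for `q_i(t) = x_i + c_{i1} t + … + c_{i e_i} t ^ e_i`. The equations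
`E_j(q(t)) = 0`, `D(q(t)) = D(x)` are `∑ h_j e + d e < ∑ e_i` polynomial equations without constant
terms for the `∑ e_i` unknowns `c_{il}`, hence have a solution `c ≠ 0`. Since `D` is relatively
ample, `D(q(t)) ≠ 0` implies that `q(t)` is a point of `Y`; and the curve is not constant, because
polynomials without zeros are constant.
-/

set_option autoImplicit false

universe u w

namespace Pool.Agent.Results.MP_410da7_ag.ToricBundles

open Pool.Agent.W594.SYZ2 Pool.Agent.TH735.AQ Q47.TB MvPolynomial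

variable {V : Type u} [NormedAddCommGroup V] [NormedSpace ℂ V] {Γ : Subgroup (V ≃ᵃ[ℂ] V)}
  {ι : Type w} [Fintype ι] {n : ℕ}

/-- The real class `(δ; H)` on the toric bundle `Y` (`δ` a class of divisors on the fibre, modulo
linear equivalence, `H` a class on the base `X`) is the sum of a combination with coefficients
`t_k ≥ 0` of classes of effective divisors and of the pullback `N` of a nef class of `X`: the line
bundle `M_k` on `X` has the Chern form `HM_k` and `O_Y(d_k; M_k)` has a nonzero section. -/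
def IsEff (r : ι → Fin n → ℤ) (c : ι → LineBundle Γ) (δ : ι → ℝ) (H : V → V → ℂ) : Prop :=
  ∃ (κ : Type) (_ : Fintype κ) (t : κ → ℝ) (d : κ → ι → ℤ) (M : κ → LineBundle Γ)
    (HM : κ → V → V → ℂ) (N : V → V → ℂ) (q : Fin n → ℝ),
    (∀ k, 0 ≤ t k) ∧ (∀ k, IsChernForm (M k) (HM k)) ∧
    (∀ k, ∃ G, IsSection r c (d k) (M k).e G ∧ ∃ v, G v ≠ 0) ∧ IsNefForm N ∧
    (∀ i, δ i = ∑ k, t k * d k i + ∑ l, q l * r i l) ∧
    ∀ v w, H v w = ∑ k, t k * HM k v w + N v w

/-- The real class `(δ; H)` is pseudo-effective: a limit of sums of classes of effective divisors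
and nef classes (all Kähler classes of `Y` are such sums). -/
def IsPseff (r : ι → Fin n → ℤ) (c : ι → LineBundle Γ) (δ : ι → ℝ) (H : V → V → ℂ) : Prop :=
  ∃ (δn : ℕ → ι → ℝ) (Hn : ℕ → V → V → ℂ), (∀ j, IsEff r c (δn j) (Hn j)) ∧
    (∀ i, Filter.Tendsto (fun j => δn j i) Filter.atTop (nhds (δ i))) ∧
    ∀ v w, Filter.Tendsto (fun j => Hn j v w) Filter.atTop (nhds (H v w))

/-- The line bundle `O(d)` on the toric variety is ample: for each cone `σ` some multiple `N d`,
`N ≥ 1`, contains an effective divisor `∑ β_i D_i` with `β_i = 0` exactly for `i ∈ σ`. -/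
def IsFibreAmple (r : ι → Fin n → ℤ) (S : Set (Set ι)) (d : ι → ℤ) : Prop :=
  ∀ σ ∈ S, ∃ (N : ℕ) (β : ι → ℕ), 1 ≤ N ∧ (∀ i, β i = 0 ↔ i ∈ σ) ∧
    LinEquiv r (fun i => (β i : ℤ)) fun i => (N : ℤ) * d i

/-- There is a nonconstant morphism from the affine line to the part of the fibre of `Y` on which
`f_1 = … = f_k = 0` and `D ≠ 0`, with `0 ↦ x`, given in the Cox coordinates by polynomials
`q_i(t)`. Each `q(t)` is a point of the fibre (the `i` with `q_i(t) = 0` form a cone), and
nonconstant means that the `q(t)` are not all in the orbit of `x` under the group of all `g` with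
`∏ g_i ^ (r_i)_l = 1` for all `l`. -/
def HasAffineLine (r : ι → Fin n → ℤ) (S : Set (Set ι)) {k : ℕ} (f : Fin k → MvPolynomial ι ℂ)
    (D : MvPolynomial ι ℂ) (x : ι → ℂ) : Prop :=
  ∃ q : ι → Polynomial ℂ, (∀ i, (q i).eval 0 = x i) ∧
    (∀ t, {i | (q i).eval t = 0} ∈ S) ∧
    (∀ t j, eval (fun i => (q i).eval t) (f j) = 0) ∧
    (∀ t, eval (fun i => (q i).eval t) D ≠ 0) ∧
    ¬ ∀ t, ∃ g : ι → ℂ, (∀ i, g i ≠ 0) ∧ (∀ l, ∏ i, g i ^ r i l = 1) ∧
      ∀ i, (q i).eval t = g i * x i

/-- Let `X = V / Γ` be a torus quotient, let `ρ` define the ramification divisor of `V → X`, let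
`Y → X` be the toric bundle given by a smooth complete fan with the rays `r i` and by line bundles
`c i` on `X` with Chern forms `Hc i`, let `D` be a section of `O_Y(d; M)`, where `O(d)` is ample on
the fibres, let `E_j` be sections of `O_Y(h_j; P_j)`, `j = 1, …, k`, and let `L` be the line bundle on
`X` with `O_Y(K_Y + D + ∑ E_j) = O_Y(d + ∑ h_j - (1, …, 1); L)`. Assume that the fibre
`(Y_v, D + ∑ E_j)` is log canonical for some `v = v₀`. Let `Z` be the set `E_1 = … = E_k = 0`.

(1) `K_Y + D + ∑ E_j` is pseudo-effective if and only if for some `N ≥ 1` at each point with all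
`x_i ≠ 0` some section of `O_Y(N (K_Y + D + ∑ E_j))` is not zero.

(2) Some multiple `N (K_Y + D + ∑ E_j)`, `N ≥ 1`, is linearly equivalent to an effective divisor on
the fibres if and only if `(d + ∑ h_j - (1, …, 1)) e ≥ 0` for all `e_i ≥ 0` with `∑ e_i r_i = 0`. If
this is not the case, then through each point of `Z ∖ D` there is a nonconstant morphism
`A¹ → Z ∖ D` (into a fibre).

(3) If `Γ` contains no reflections, then `K_Y + D + ∑ E_j` is pseudo-effective if and only if some
multiple is linearly equivalent to an effective divisor on the fibres. -/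
theorem result [FiniteDimensional ℂ V] (Γ : Subgroup (V ≃ᵃ[ℂ] V)) (hΓ : IsTorusQuotient Γ)
    (ρ : V → ℂ) (hρ : IsRamification Γ ρ)
    (n : ℕ) (r : ι → Fin n → ℤ) (S : Set (Set ι)) (hS : IsSmoothFan r S)
    (c : ι → LineBundle Γ) (Hc : ι → V → V → ℂ) (hc : ∀ i, IsChernForm (c i) (Hc i))
    (d : ι → ℤ) (hd : IsFibreAmple r S d) (M : LineBundle Γ) (D : V → MvPolynomial ι ℂ)
    (hD : IsSection r c d M.e D)
    (k : ℕ) (h : Fin k → ι → ℤ) (P : Fin k → LineBundle Γ) (E : Fin k → V → MvPolynomial ι ℂ)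
    (hE : ∀ j, IsSection r c (h j) (P j).e (E j))
    (L : LineBundle Γ) (H : V → V → ℂ) (hL : IsChernForm L H)
    (hF : Q47.TB.IsLogPluricanonical r c 1 ρ (fun i => d i + ∑ j, h j i)
      (fun v => D v * ∏ j, E j v) L)
    (v₀ : V) (hlc : IsLogCanonical S 1 (D v₀ * ∏ j, E j v₀)) :
    (IsPseff r c (fun i => d i + ∑ j, h j i - 1) H ↔
      ∃ N : ℕ, 1 ≤ N ∧ ∀ (v : V) (x : ι → ℂ), (∀ i, x i ≠ 0) →
        ∃ G, IsSection r c (fun i => (N : ℤ) * (d i + ∑ j, h j i - 1))
          (fun γ v => L.e γ v ^ N) G ∧ eval x (G v) ≠ 0) ∧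
    ((∃ (N : ℕ) (b : ι → ℕ), 1 ≤ N ∧
        LinEquiv r (fun i => (b i : ℤ)) fun i => (N : ℤ) * (d i + ∑ j, h j i - 1)) ↔
      ∀ e : ι → ℕ, (∀ l, ∑ i, (e i : ℤ) * r i l = 0) →
        0 ≤ ∑ i, (d i + ∑ j, h j i - 1) * (e i : ℤ)) ∧
    ((¬ ∃ (N : ℕ) (b : ι → ℕ), 1 ≤ N ∧
        LinEquiv r (fun i => (b i : ℤ)) fun i => (N : ℤ) * (d i + ∑ j, h j i - 1)) →
      ∀ (v : V) (x : ι → ℂ), eval x (D v) ≠ 0 → (∀ j, eval x (E j v) = 0) →
        HasAffineLine r S (fun j => E j v) (D v) x) ∧
    ((∀ v, ¬ OnMirror Γ v) →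
      (IsPseff r c (fun i => d i + ∑ j, h j i - 1) H ↔
        ∃ (N : ℕ) (b : ι → ℕ), 1 ≤ N ∧
          LinEquiv r (fun i => (b i : ℤ)) fun i => (N : ℤ) * (d i + ∑ j, h j i - 1))) := by
  have hT : ∀ α ∈ (D v₀ * ∏ j, E j v₀).support, ∃ v, coeff α (D v * ∏ j, E j v) ≠ 0 :=
    fun _ hα => ⟨v₀, mem_support_iff.1 hα⟩
  have hw := weights_of_lc le_rfl hlc
  -- one of the coefficients is not zero
  have hne : D v₀ * ∏ j, E j v₀ ≠ 0 := fun h0 => by
    obtain ⟨α, hα, -⟩ := hw (fun _ => 0) (by simpa using hS.empty_mem)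
    rw [h0] at hα
    simp at hα
  have hEne : ∀ j, ∃ α : ι →₀ ℕ, LinEquiv r (fun i => (α i : ℤ)) (h j) := fun j => by
    have h1 : E j v₀ ≠ 0 := fun h0 =>
      hne (by rw [Finset.prod_eq_zero (Finset.mem_univ j) h0, mul_zero])
    obtain ⟨α, hα⟩ := MvPolynomial.support_nonempty.2 h1
    exact ⟨α, (hE j).deg v₀ α hα⟩
  have hpt : ∀ {G : V → MvPolynomial ι ℂ} {v : V} {x : ι → ℂ}, eval x (G v) ≠ 0 → G v ≠ 0 :=
    fun hx h0 => hx (by rw [h0, map_zero])
  have hcast : (fun i => ((d i + ∑ j, h j i - 1 : ℤ) : ℝ))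
      = fun i => (d i : ℝ) + ((∑ j, h j i : ℤ) : ℝ) - 1 := by
    ext i
    push_cast
    ring
  refine ⟨⟨fun hp => ?_, fun ⟨N, hN, hG⟩ => ?_⟩, ⟨fun ⟨N, b, hN, hb⟩ e he => ?_, fun he => ?_⟩,
    fun hno v x hx hz => ?_, fun hmir => ⟨fun hp => ?_, fun ⟨N, b, hN, hb⟩ => ?_⟩⟩
  · obtain ⟨β, q, h0, h1, h2⟩ := exists_real hΓ hS hc hp
    exact Q47.AL.nonvanishing_at hΓ hρ hS hc hL hF _ hT hw h0
      (fun i => by rw [h1 i]; push_cast; ring) h2
  · obtain ⟨G, hG1, hG2⟩ := hG 0 (fun _ => 1) (fun _ => one_ne_zero)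
    have h3 := pseff_of_section (d := fun i => d i + ∑ j, h j i - 1) hL hN hG1
      ⟨0, hpt hG2⟩
    rwa [hcast] at h3
  · have h1 := Q47.AL.pair_eq hb he
    have h2 : ∑ i, (N : ℤ) * (d i + ∑ j, h j i - 1) * (e i : ℤ)
        = N * ∑ i, (d i + ∑ j, h j i - 1) * (e i : ℤ) := by
      rw [Finset.mul_sum]
      exact Finset.sum_congr rfl fun i _ => by ring
    rw [h2] at h1
    have h3 : 0 ≤ (N : ℤ) * ∑ i, (d i + ∑ j, h j i - 1) * (e i : ℤ) := by
      rw [← h1]
      exact Finset.sum_nonneg fun i _ => mul_nonneg (Int.natCast_nonneg _) (Int.natCast_nonneg _)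
    have hN' : (0 : ℤ) < N := by exact_mod_cast hN
    exact nonneg_of_mul_nonneg_right h3 hN'
  · by_contra hc'
    obtain ⟨e, he1, he2⟩ := Q47.AL.exists_relation r (fun i => d i + ∑ j, h j i - 1) hc'
    exact absurd (he e he1) (not_le.2 he2)
  · exact Q47.AL.exists_line hS hd (fun α hα => hD.deg v α hα) (fun j α hα => (hE j).deg v α hα)
      hEne hno hx hz
  · obtain ⟨β, q, h0, h1, h2⟩ := exists_real hΓ hS hc hp
    obtain ⟨N, hN, hG⟩ := Q47.AL.nonvanishing_at hΓ hρ hS hc hL hF _ hT hw h0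
      (fun i => by rw [h1 i]; push_cast; ring) h2
    obtain ⟨G, hG1, hG2⟩ := hG 0 (fun _ => 1) (fun _ => one_ne_zero)
    obtain ⟨b, hb⟩ := fibre_of_section hG1 ⟨0, hpt hG2⟩
    exact ⟨N, b, hN, by simpa using hb⟩
  · obtain ⟨N', hN', hG⟩ := Q47.AL.nonvanishing_no_mirror_at hΓ hρ hmir hS hc hL hF _ hT hw hN
      (b := b) (by simpa using hb)
    obtain ⟨G, hG1, hG2⟩ := hG 0 (fun _ => 1) (fun _ => one_ne_zero)
    have h3 := pseff_of_section (d := fun i => d i + ∑ j, h j i - 1) hL hN' (by simpa using hG1)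
      ⟨0, hpt hG2⟩
    rwa [hcast] at h3

end Pool.Agent.Results.MP_410da7_ag.ToricBundles
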