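import Pool.Agent.Q36.PT.Lf

/-!
# The twelfth logarithmic plurigenus decides `A¹`-uniruledness for quotients of products of open curves

For open varieties `X` of any dimension which are quotients of products of arbitrary open curves by
finite groups `G` (which may permute the factors and may have fixed points, in codimension at least
`N`), the logarithmic Kodaira dimension is `-∞`, and `X` is `A¹`-uniruled, if and only if the
logarithmic plurigenus with the single index `12` vanishes. The exponent `12` does not depend on the
dimension, on the curves or on the group. Both implications between `κ̄ = -∞` and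
`A¹`-uniruled are proved.

The language and the definitions of `Pool.Agent.W619` (the file
`MP_410da7_ag/MixedOpenQuotients.lean`) are used; that file has the implication from `κ̄ = -∞` to
`A¹`-uniruled, without a bound for the index of the plurigenera.

Proof: an orbifold structure of nonnegative degree on a curve `Q`, with coefficients `1` at the
boundary points and `1 - 1 / e_q` elsewhere, has a section of weight exactly `12` (round down: the
inequality `round12` of `Pool.Agent.Q36.PT.Ar`), so that there is a form of weight exactly `12` on
each of the quotient curves; they can be chosen such that `G` permutes them, and their product with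
the `12`-th power of the Jacobian determinant is invariant under `G`.
-/

set_option autoImplicit false
set_option linter.overlappingInstances false

open FF IntermediateField Pool.Agent.W619.PQ Pool.Agent.W619.PL Pool.Agent.W619.TW
  Pool.Agent.W619.X Pool.Agent.W619.Y

namespace Pool.Agent.Results.MP_410da7_ag.TwelfthLogPlurigenus

/-- The logarithmic plurigenus `P_m` is not zero: there is a nonzero `m`-fold pluricanonical form
which is regular along the divisorial places outside the boundary `Bd` and logarithmic along the
divisorial places in `Bd`. -/
def LogPlurigenusPos (k : Type*) (K : Type*) [Field k] [Field K] [Algebra k K] (n : ℕ)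
    (Bd : Place k K → Prop) (m : ℕ) : Prop :=
  ∃ ω : (Fin n → Derivation k K K) → K, IsPluriForm k K n m ω ∧
    (∀ v : Place k K, IsDivisorial v n → ¬ Bd v → RegularAt v n ω) ∧
    (∀ v : Place k K, IsDivisorial v n → Bd v → LogRegularAt v n ω) ∧ ∃ D, ω D ≠ 0

/-- **`P₁₂` decides `A¹`-uniruledness.** Let `F i` (`i < n`) be the function fields of curves `C i`,
`L` the function field of a projective variety `Z` of dimension `n` with a generically finite
rational map to the product of the curves, `G` a finite group of automorphisms of `L` which permutes
the curves through `σ`, and `B i` a finite set of points of the quotient of `C i` by its stabilizer.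
The boundary `BdQ` consists of the places of the function field of `Z / G` which are over a point of
some `B i`; `X` is `Z / G` without the boundary. Assume `LogMixedNonneg`: for some `N ≥ 2` the fixed
locus of each `g ≠ 1` in `G` on the product of the curves is empty or of codimension at least `N`,
and for each `i`: `N ≥ 6` (`4` if `3` does not divide the order of `G`, `3` if the order is odd, `2`
if `B i` is not empty), or the quotient of `C i` is irrational or has at least `4` branch points (the
points of `B i` counted twice), or it has an orbifold divisor of nonnegative degree with coefficients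
at most `1 - 1 / N` outside `B i`, or `C i` minus the preimage of `B i` is `P¹` or `A¹`.

(1) If none of the open curves is `P¹` or `A¹` then the logarithmic plurigenus `P_m` of `X` is not
zero for all `m` divisible by `12`.

(2) If `Z` is the product of the curves and the `B i` are permuted by `G` then the following are
equivalent: `P₁₂ = 0`; the logarithmic Kodaira dimension of `X` is `-∞`; `X` is `A¹`-uniruled;
`K + B` is not pseudo-effective; its numerical dimension is `-∞`; one of the open curves is `P¹` or
`A¹`. -/
theorem result {L : Type} [Field L] [Algebra ℂ L] (n : ℕ) (hn : Algebra.trdeg ℂ L = n)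
    (F : Fin n → IntermediateField ℂ L) (hF : ∀ i, IsFF ℂ (F i))
    (halg : Algebra.IsAlgebraic ↥(⨆ i, F i) L)
    (G : Subgroup (L ≃ₐ[ℂ] L)) [Finite G] (σ : G →* Equiv.Perm (Fin n))
    (hσ : ∀ (g : G) i, ∀ z ∈ F i, (g : L ≃ₐ[ℂ] L) z ∈ F (σ g i))
    (B : ∀ i, Set (Place ℂ ↥(F i ⊓ fixedField (stb G σ i)))) (hB : ∀ i, (B i).Finite)
    (h : LogMixedNonneg G σ F B) :
    ((∀ i, ¬ IsNegative (inf_le_left : F i ⊓ fixedField (stb G σ i) ≤ F i) (B i)) → ∀ m, 12 ∣ m →
      LogPlurigenusPos ℂ (fixedField G) n (BdQ G σ F B) m) ∧
    (⨆ i, F i = ⊤ → BdInv G σ F B →
      List.TFAE [¬ LogPlurigenusPos ℂ (fixedField G) n (BdQ G σ F B) 12,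
      LogKodairaNeg ℂ (fixedField G) n (BdQ G σ F B),
      IsA1Uniruled ℂ (fixedField G) n (BdQ G σ F B),
      ¬ IsPsef ℂ (fixedField G) n (BdQ G σ F B),
      NumNeg ℂ (fixedField G) n (BdQ G σ F B),
      ∃ i, IsNegative (inf_le_left : F i ⊓ fixedField (stb G σ i) ≤ F i) (B i)]) :=
  Q36.PT.log_criterion12 hn F halg G σ hσ B hB h

end Pool.Agent.Results.MP_410da7_ag.TwelfthLogPlurigenus
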